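import Pool.Agent.helper83.SC.RPD
import Pool.Agent.helper22.SC.REC
import Pool.Agent.helper43.SC.DAT
import Pool.Agent.helper71.SC.EXP
import Pool.Agent.helper15.SC.EPS
import Pool.Agent.helper92.SC.GGF
import Pool.Agent.helper99.SC.GGB
import Pool.Agent.helper46.SC.POW
import Pool.Agent.helper73.SC.MCH
import Pool.Agent.helper13.SC.LTS
import Pool.Agent.helper32.SC.HSM
import Pool.Agent.helper47.SC.DOM
import Pool.Agent.helper47.SC.BLO
import Pool.Agent.helper44.SC.NSQ
import Pool.Agent.helper34.SC.QAN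
import Pool.Agent.helper36.SC.QSM
import Pool.Agent.helper52.SC.QTT
import Pool.Agent.helper67.SC.LIN
import Pool.Agent.helper28.SC.YYO
import Pool.Agent.helper9.SC.YYC
import Pool.Agent.helper82.SC.LGS
import Pool.Agent.helper56.SC.LGB
import Pool.Agent.helper45.SC.WSM
import Pool.Agent.helper50.SC.VSM
import Pool.Agent.helper88.SC.VQQ
import Pool.Agent.helper91.SC.GRD
import Pool.Agent.helper65.SC.CMP
import Pool.Agent.helper18.SC.SHR
import Pool.Agent.helper94.SC.OMC
import Pool.Agent.helper75.SC.FRO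
import Pool.Agent.helper5.SC.SPC
import Pool.Agent.helper72.SC.LMX
import Pool.Agent.helper99.SC.LIO
import Pool.Agent.helper16.SCP.COR
import Pool.Agent.helper12.SC.MEA
import Pool.Agent.helper55.SC.PCI
import Pool.Agent.helper79.SC.PBA
import Pool.Agent.helper94.SC.PCO
import Pool.Agent.helper51.SC.PPN
import Pool.Agent.helper47.SC.FIN

/-!
# MP_0015b7_an: a strictly pseudoconvex domain whose core is not pluripolar

There is a strictly pseudoconvex domain in `ℂ⁴` with smooth boundary whose core has positive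
Lebesgue measure; in particular the core is not pluripolar. All notions are defined in
`Pool/Agent/helper47/SC/Defs.lean`.
-/

open scoped Topology ContDiff
open Set Filter Metric MeasureTheory

namespace Pool.Agent.Results.MP_0015b7_an.CoreNotPluripolar

open Pool.Agent.SC in
/-- There is a domain `Ω ⊂ ℂ⁴` (open and connected), strictly pseudoconvex with smooth nonempty
boundary, whose core has positive Lebesgue measure and is not pluripolar. -/
theorem result : ∃ Ω : Set (ℂ × ℂ × ℂ × ℂ), IsOpen Ω ∧ IsConnected Ω ∧ (frontier Ω).Nonempty ∧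
    StrictlyPseudoconvex Ω ∧ 0 < volume (core Ω) ∧ ¬ Pluripolar (core Ω) := by
  have hRPD : RPD_stmt := RPD
  have hREC : REC_stmt := REC hRPD
  have hDAT : DAT_stmt := DAT hREC hRPD
  have hEXP : EXP_stmt := EXP
  have hEPS : EPS_stmt := EPS
  have hGGF : GGF_stmt := GGF hEPS
  have hGGB : GGB_stmt := GGB
  have hPOW : POW_stmt := POW
  have hMCH : MCH_stmt := MCH hGGB hPOW
  have hLTS : LTS_stmt := LTS
  have hHSM : HSM_stmt := HSM hLTS hGGB
  have hDOM : DOM_stmt := DOM hGGB
  have hBLO : BLO_stmt := BLO hGGB hDOM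
  have hNSQ : NSQ_stmt := NSQ
  have hQAN : QAN_stmt := QAN hNSQ hEPS
  have hQSM : QSM_stmt := QSM hNSQ hEPS
  have hQTT : QTT_stmt := QTT hGGF hNSQ hEPS
  have hLIN : LIN_stmt := LIN hNSQ hEPS hQTT
  have hYYO : YYO_stmt := YYO hGGB hNSQ hQAN
  have hYYC : YYC_stmt := YYC hNSQ hEPS hGGF hQAN
  have hLGS : LGS_stmt := LGS hNSQ
  have hLGB : LGB_stmt := LGB hLGS hNSQ
  have hWSM : WSM_stmt := WSM hLTS hLGS hLGB hNSQ hEPS
  have hVSM : VSM_stmt := VSM hWSM hLGS hNSQ
  have hVQQ : VQQ_stmt := VQQ hWSM hNSQ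
  have hGRD : GRD_stmt := GRD hVSM hWSM hNSQ hEPS
  have hCMP : CMP_stmt := CMP
  have hSHR : SHR_stmt := SHR
  have hOMC : OMC_stmt := OMC hSHR hYYO hYYC hNSQ
  have hFRO : FRO_stmt := FRO hQSM hQTT hVSM hVQQ hSHR hOMC hNSQ
  have hSPC : SPC_stmt := SPC hFRO hVSM hVQQ hGRD hCMP hSHR
  have hLMX : LMX_stmt := LMX
  have hLIO : LIO_stmt := LIO hLMX
  have hCOR : COR_stmt := COR hLIN hSHR hLIO hCMP
  have hMEA : MEA_stmt := MEA
  have hPCI : PCI_stmt := PCI
  have hPBA : PBA_stmt := PBA hPCI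
  have hPCO : PCO_stmt := PCO hPBA
  have hPPN : PPN_stmt := PPN hPCO
  exact FIN hNSQ hDAT hEXP hMCH hGGB hHSM hBLO hOMC hSPC hYYO hCOR hMEA hPPN hSHR

end Pool.Agent.Results.MP_0015b7_an.CoreNotPluripolar
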